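import Pool.Agent.Helper38.XF.Spec

set_option autoImplicit false

namespace Pool.Agent.Helper88.XF.POW

open Pool.Agent.Helper38.XF

theorem main : St_POW := by
  intro p _ L _ _ t k hP hk E s hs
  rw [linearIndepOn_finset_iff] at hs ⊢
  intro c hc
  have hp0 : p ≠ 0 := (Fact.out : p.Prime).ne_zero
  choose d hd using fun i : E => hP.1 (c i : L)
  have hdk : ∀ i j, d i j ∈ k := fun i => hk.2 (d i) (by rw [← hd i]; exact (c i).2)
  have h1 : ∑ j : Fin p, (∑ i ∈ s, d i j * (i : L)) ^ p * t ^ (j : ℕ) = 0 := by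
    have h2 : ∑ i ∈ s, (c i : L) * (i : L) ^ p = 0 := by
      have h3 := congrArg (fun x : E => (x : L)) hc
      simp only [Pi.pow_apply, id_eq, IntermediateField.coe_zero] at h3
      rw [← h3]
      push_cast
      refine Finset.sum_congr rfl fun i _ => ?_
      rfl
    rw [← h2]
    have h4 : ∀ j : Fin p, (∑ i ∈ s, d i j * (i : L)) ^ p = ∑ i ∈ s, d i j ^ p * (i : L) ^ p := by
      intro j
      rw [sum_pow_char]
      refine Finset.sum_congr rfl fun i _ => ?_
      rw [mul_pow]
    simp only [h4, Finset.sum_mul]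
    rw [Finset.sum_comm]
    refine Finset.sum_congr rfl fun i _ => ?_
    rw [hd i, Finset.sum_mul]
    refine Finset.sum_congr rfl fun j _ => ?_
    ring
  have h5 := hP.2 _ h1
  intro i hi
  have h6 : ∀ j, d i j = 0 := by
    intro j
    have h7 := hs (fun i => ⟨d i j, hdk i j⟩) (by
      apply Subtype.ext
      rw [IntermediateField.coe_zero, ← h5 j]
      push_cast
      refine Finset.sum_congr rfl fun i _ => ?_
      rfl) i hi
    exact congrArg (fun x : k => (x : L)) h7
  apply Subtype.ext
  rw [hd i]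
  simp [h6, zero_pow hp0]

end Pool.Agent.Helper88.XF.POW
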